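import Pool.Agent.Helper57.TX.Defs

/-!
# TX: the difference of the prime sums at two points (block A10)

The sum over the prime powers `n ≤ exp X` with the weights `Λ(n)/(√n log n)` and the profile `ph` is split into
primes, squares of primes and higher powers.  The difference of the sums over the primes at `y + h` and `y` is the
real part of one Dirichlet polynomial at the middle point; the squares give the two middle terms; the higher
powers are bounded.
-/

set_option autoImplicit false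
open MeasureTheory Set Filter Topology
open Pool.Agent.Helper49.SO (Pr)

namespace Pool.Agent.Helper57.TX

/-- the weight `Λ(n)/(√n log n)` -/
private noncomputable def w17 (n : ℕ) : ℝ :=
  ArithmeticFunction.vonMangoldt n / (Real.sqrt n * Real.log n)

private theorem w17_nonneg (n : ℕ) : 0 ≤ w17 n := by
  unfold w17
  rcases Nat.lt_or_ge n 1 with h | h
  · have : n = 0 := by omega
    subst this; simp
  · have h1 : (1 : ℝ) ≤ n := by exact_mod_cast h
    have h2 := Real.log_nonneg h1
    exact div_nonneg ArithmeticFunction.vonMangoldt_nonneg (mul_nonneg (Real.sqrt_nonneg _) h2)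

private theorem w17_le (n : ℕ) : w17 n ≤ 1 / √n := by
  unfold w17
  rcases Nat.lt_or_ge n 2 with h | h
  · have : (ArithmeticFunction.vonMangoldt n : ℝ) = 0 := by interval_cases n <;> simp
    rw [this, zero_div]; positivity
  · have h1 : (2 : ℝ) ≤ n := by exact_mod_cast h
    have h2 : 0 < Real.log n := Real.log_pos (by linarith)
    have h3 : 0 < √(n : ℝ) := Real.sqrt_pos.2 (by linarith)
    rw [div_le_div_iff₀ (mul_pos h3 h2) h3]
    have h4 : ArithmeticFunction.vonMangoldt n ≤ Real.log n := ArithmeticFunction.vonMangoldt_le_log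
    nlinarith

private theorem w17_prime {p : ℕ} (hp : p.Prime) : w17 p = 1 / √p := by
  unfold w17
  have h1 : (2 : ℝ) ≤ p := by exact_mod_cast hp.two_le
  have h2 : 0 < Real.log p := Real.log_pos (by linarith)
  rw [ArithmeticFunction.vonMangoldt_apply_prime hp]
  field_simp

private theorem w17_sq {p : ℕ} (hp : p.Prime) : w17 (p ^ 2) = 1 / (2 * p) := by
  unfold w17
  have h1 : (2 : ℝ) ≤ p := by exact_mod_cast hp.two_le
  have h2 : 0 < Real.log p := Real.log_pos (by linarith)
  rw [ArithmeticFunction.vonMangoldt_apply_pow (by norm_num),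
    ArithmeticFunction.vonMangoldt_apply_prime hp]
  push_cast
  rw [Real.sqrt_sq (by linarith), Real.log_pow]
  push_cast
  field_simp

private theorem ph_abs (u : ℝ) (hu : 0 ≤ u) : |ph u| ≤ 2 := by
  unfold ph
  have h1 : 0 ≤ max 0 (1 - u) := le_max_left _ _
  have h2 : max 0 (1 - u) ≤ 1 := max_le (by norm_num) (by linarith)
  have h3 : 0 ≤ max 0 (1 - 2 * u) := le_max_left _ _
  have h4 : max 0 (1 - 2 * u) ≤ max 0 (1 - u) := max_le_max le_rfl (by linarith)
  rw [abs_le]
  constructor <;> nlinarith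

/-- the sum `PP` with its profile -/
private theorem PP_eq17 {X : ℝ} (hX : 0 < X) (y : ℝ) :
    PP X y = 1 / Real.pi * ∑ n ∈ Finset.range (⌊Real.exp X⌋₊ + 1),
      w17 n * ph (Real.log n / X) * Real.sin (y * Real.log n) := by
  have hsub : Finset.range (⌊Real.exp (X / 2)⌋₊ + 1) ⊆ Finset.range (⌊Real.exp X⌋₊ + 1) := by
    apply Finset.range_mono
    have : ⌊Real.exp (X / 2)⌋₊ ≤ ⌊Real.exp X⌋₊ :=
      Nat.floor_le_floor (Real.exp_le_exp.2 (by linarith))
    omega
  have h1 : Pr (X / 2) y = 1 / Real.pi * ∑ n ∈ Finset.range (⌊Real.exp X⌋₊ + 1),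
      w17 n * max 0 (1 - 2 * (Real.log n / X)) ^ 2 * Real.sin (y * Real.log n) := by
    unfold Pr
    congr 1
    rw [← Finset.sum_subset hsub]
    · refine Finset.sum_congr rfl fun n hn => ?_
      have e1 : 1 - Real.log n / (X / 2) = 1 - 2 * (Real.log n / X) := by field_simp
      rw [e1]
      unfold w17
      rcases Nat.lt_or_ge n 1 with h | h
      · have : n = 0 := by omega
        subst this; simp
      · have h2 : (n : ℝ) ≤ Real.exp (X / 2) := by
          rw [Finset.mem_range, Nat.lt_succ_iff] at hn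
          exact (Nat.le_floor_iff (Real.exp_pos _).le).1 hn
        have h3 : Real.log n ≤ X / 2 := by
          have := Real.log_le_log (by exact_mod_cast h) h2
          rwa [Real.log_exp] at this
        have h4 : 0 ≤ 1 - 2 * (Real.log n / X) := by
          have : Real.log n / X ≤ 1 / 2 := by
            rw [div_le_iff₀ hX]; linarith
          linarith
        rw [max_eq_right h4]
    · intro n _ hn
      rw [Finset.mem_range, not_lt, Nat.succ_le_iff] at hn
      have h2 : Real.exp (X / 2) < n := (Nat.floor_lt (Real.exp_pos _).le).1 hn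
      have h3 : X / 2 < Real.log n := by
        have := Real.log_lt_log (Real.exp_pos _) h2
        rwa [Real.log_exp] at this
      have h4 : 1 - 2 * (Real.log n / X) ≤ 0 := by
        have : 1 / 2 < Real.log n / X := by
          rw [lt_div_iff₀ hX]; linarith
        linarith
      rw [max_eq_left h4]; ring
  have h2 : Pr X y = 1 / Real.pi * ∑ n ∈ Finset.range (⌊Real.exp X⌋₊ + 1),
      w17 n * max 0 (1 - Real.log n / X) ^ 2 * Real.sin (y * Real.log n) := by
    unfold Pr
    congr 1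
    refine Finset.sum_congr rfl fun n hn => ?_
    unfold w17
    rcases Nat.lt_or_ge n 1 with h | h
    · have : n = 0 := by omega
      subst this; simp
    · have h2 : (n : ℝ) ≤ Real.exp X := by
        rw [Finset.mem_range, Nat.lt_succ_iff] at hn
        exact (Nat.le_floor_iff (Real.exp_pos _).le).1 hn
      have h3 : Real.log n ≤ X := by
        have := Real.log_le_log (by exact_mod_cast h) h2
        rwa [Real.log_exp] at this
      have h4 : 0 ≤ 1 - Real.log n / X := by
        have : Real.log n / X ≤ 1 := by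
          rw [div_le_iff₀ hX]; linarith
        linarith
      rw [max_eq_right h4]
  unfold PP
  rw [h1, h2, ← mul_assoc, mul_comm 2 (1 / Real.pi), mul_assoc, ← mul_sub, Finset.mul_sum,
    ← Finset.sum_sub_distrib]
  congr 1
  refine Finset.sum_congr rfl fun n _ => ?_
  unfold ph
  ring

/-- higher powers of primes -/
private theorem high17 : ∃ C : ℝ, 0 < C ∧ ∀ N : ℕ, ∀ S : Finset ℕ, S ⊆ Finset.range (N + 1) →
    (∀ n ∈ S, ¬ n.Prime ∧ ∀ p : ℕ, p.Prime → n ≠ p ^ 2) → ∑ n ∈ S, w17 n ≤ C := by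
  classical
  set r : ℝ := 1 / √2 with hr
  have hs2 : 1 < √(2 : ℝ) := by
    rw [Real.lt_sqrt (by norm_num)]; norm_num
  have hr0 : 0 ≤ r := by positivity
  have hr1 : r < 1 := by
    rw [hr, div_lt_one (by linarith)]; exact hs2
  have hsr : Summable fun j : ℕ => r ^ j := summable_geometric_of_lt_one hr0 hr1
  have hsm : Summable fun m : ℕ => 1 / (m : ℝ) ^ (3 / 2 : ℝ) :=
    Real.summable_one_div_nat_rpow.2 (by norm_num)
  have hm0 : ∀ m : ℕ, 0 ≤ 1 / (m : ℝ) ^ (3 / 2 : ℝ) := fun m => by positivity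
  refine ⟨(∑' m : ℕ, 1 / (m : ℝ) ^ (3 / 2 : ℝ)) * (∑' j : ℕ, r ^ j) + 1, ?_, ?_⟩
  · have h1 : 0 ≤ ∑' m : ℕ, 1 / (m : ℝ) ^ (3 / 2 : ℝ) := tsum_nonneg hm0
    have h2 : 0 ≤ ∑' j : ℕ, r ^ j := tsum_nonneg fun j => pow_nonneg hr0 j
    positivity
  intro N S hS hS2
  set P : Finset (ℕ × ℕ) := (Finset.range (N + 1)) ×ˢ (Finset.range (N + 1)) with hP
  -- the terms of `S` come from pairs
  have hmap : ∀ n ∈ S, w17 n ≠ 0 → ∃ x ∈ P, 2 ≤ x.1 ∧ x.1 ^ (x.2 + 3) = n := by
    intro n hn hw
    have hpp : IsPrimePow n := by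
      by_contra hno
      apply hw
      unfold w17
      rw [ArithmeticFunction.vonMangoldt_eq_zero_iff.2 hno, zero_div]
    obtain ⟨p, k, hp, hk, rfl⟩ := (isPrimePow_nat_iff n).1 hpp
    obtain ⟨h1, h2⟩ := hS2 _ hn
    have hk3 : 3 ≤ k := by
      by_contra hno
      have : k = 1 ∨ k = 2 := by omega
      rcases this with rfl | rfl
      · exact h1 (by simpa using hp)
      · exact h2 p hp rfl
    have hN : p ^ k < N + 1 := Finset.mem_range.1 (hS hn)
    refine ⟨(p, k - 3), ?_, hp.two_le, ?_⟩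
    · rw [hP, Finset.mem_product, Finset.mem_range, Finset.mem_range]
      constructor
      · have : p ≤ p ^ k := Nat.le_self_pow (by omega) p
        show p < N + 1
        omega
      · have h3 : k < 2 ^ k := Nat.lt_two_pow_self
        have h4 : 2 ^ k ≤ p ^ k := Nat.pow_le_pow_left hp.two_le k
        show k - 3 < N + 1
        omega
    · show p ^ (k - 3 + 3) = p ^ k
      congr 1
      omega
  have hsub : S.filter (fun n => w17 n ≠ 0) ⊆
      (P.filter fun x => 2 ≤ x.1).image (fun x : ℕ × ℕ => x.1 ^ (x.2 + 3)) := by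
    intro n hn
    rw [Finset.mem_filter] at hn
    obtain ⟨x, hx, hx2, hxn⟩ := hmap n hn.1 hn.2
    rw [Finset.mem_image]
    exact ⟨x, Finset.mem_filter.2 ⟨hx, hx2⟩, hxn⟩
  have hterm : ∀ x ∈ P.filter (fun x => 2 ≤ x.1), w17 (x.1 ^ (x.2 + 3)) ≤
      1 / (x.1 : ℝ) ^ (3 / 2 : ℝ) * r ^ x.2 := by
    intro x hx
    rw [Finset.mem_filter] at hx
    have hx2 : (2 : ℝ) ≤ x.1 := by exact_mod_cast hx.2
    refine (w17_le _).trans ?_
    push_cast
    have e1 : √((x.1 : ℝ) ^ (x.2 + 3)) = √(x.1 : ℝ) ^ x.2 * (x.1 : ℝ) ^ (3 / 2 : ℝ) := by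
      rw [pow_add, Real.sqrt_mul (by positivity)]
      congr 1
      · rw [Real.sqrt_eq_rpow, Real.sqrt_eq_rpow, ← Real.rpow_natCast, ← Real.rpow_natCast,
          ← Real.rpow_mul (by positivity), ← Real.rpow_mul (by positivity)]
        congr 1; ring
      · rw [Real.sqrt_eq_rpow, ← Real.rpow_natCast, ← Real.rpow_mul (by positivity)]
        congr 1; norm_num
    have h3 : √(2 : ℝ) ^ x.2 ≤ √(x.1 : ℝ) ^ x.2 :=
      pow_le_pow_left₀ (by positivity) (Real.sqrt_le_sqrt hx2) _
    have h4 : 0 < √(2 : ℝ) ^ x.2 := by positivity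
    have h5 : (0 : ℝ) < (x.1 : ℝ) ^ (3 / 2 : ℝ) := by positivity
    rw [e1, hr, div_pow, one_pow, div_mul_div_comm, one_mul]
    apply one_div_le_one_div_of_le (by positivity)
    rw [mul_comm]
    exact mul_le_mul_of_nonneg_right h3 h5.le
  calc ∑ n ∈ S, w17 n = ∑ n ∈ S.filter (fun n => w17 n ≠ 0), w17 n := by
        rw [Finset.sum_filter_ne_zero]
    _ ≤ ∑ n ∈ (P.filter fun x => 2 ≤ x.1).image (fun x : ℕ × ℕ => x.1 ^ (x.2 + 3)), w17 n :=
        Finset.sum_le_sum_of_subset_of_nonneg hsub fun n _ _ => w17_nonneg n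
    _ ≤ ∑ x ∈ P.filter (fun x => 2 ≤ x.1), w17 (x.1 ^ (x.2 + 3)) :=
        Finset.sum_image_le_of_nonneg fun n _ => w17_nonneg n
    _ ≤ ∑ x ∈ P.filter (fun x => 2 ≤ x.1), 1 / (x.1 : ℝ) ^ (3 / 2 : ℝ) * r ^ x.2 :=
        Finset.sum_le_sum hterm
    _ ≤ ∑ x ∈ P, 1 / (x.1 : ℝ) ^ (3 / 2 : ℝ) * r ^ x.2 :=
        Finset.sum_le_sum_of_subset_of_nonneg (Finset.filter_subset _ _)
          fun x _ _ => mul_nonneg (hm0 _) (pow_nonneg hr0 _)
    _ = (∑ m ∈ Finset.range (N + 1), 1 / (m : ℝ) ^ (3 / 2 : ℝ)) *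
          ∑ j ∈ Finset.range (N + 1), r ^ j := by
        rw [hP, Finset.sum_product, Finset.sum_mul_sum]
    _ ≤ (∑' m : ℕ, 1 / (m : ℝ) ^ (3 / 2 : ℝ)) * ∑' j : ℕ, r ^ j :=
        mul_le_mul (hsm.sum_le_tsum _ fun m _ => hm0 m)
          (hsr.sum_le_tsum _ fun j _ => pow_nonneg hr0 j)
          (Finset.sum_nonneg fun j _ => pow_nonneg hr0 j) (tsum_nonneg hm0)
    _ ≤ _ := by linarith

private theorem cpow17 {p : ℕ} (hp : 2 ≤ p) (t : ℝ) :
    ((p : ℂ) ^ (-((1 / 2 : ℂ) + (t : ℂ) * Complex.I))).re = 1 / √p * Real.cos (t * Real.log p) ∧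
    ((p : ℂ) ^ (-((1 / 2 : ℂ) + (t : ℂ) * Complex.I))).im =
      -(1 / √p * Real.sin (t * Real.log p)) := by
  have hp0 : (0 : ℝ) < p := by exact_mod_cast (by omega : 0 < p)
  have hpc : (p : ℂ) ≠ 0 := by exact_mod_cast (by omega : p ≠ 0)
  have e1 : (p : ℂ) ^ (-((1 / 2 : ℂ) + (t : ℂ) * Complex.I)) =
      Complex.exp (((-(Real.log p / 2) : ℝ) : ℂ) + ((-(t * Real.log p) : ℝ) : ℂ) * Complex.I) := by
    rw [Complex.cpow_def_of_ne_zero hpc, ← Complex.natCast_log]
    congr 1
    push_cast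
    ring
  have e2 : Real.exp (-(Real.log p / 2)) = 1 / √p := by
    rw [Real.exp_neg, one_div, Real.sqrt_eq_rpow, Real.rpow_def_of_pos hp0]
    congr 2; ring
  have e3 : ∀ a b : ℝ, (Complex.exp ((a : ℂ) + (b : ℂ) * Complex.I)).re = Real.exp a * Real.cos b ∧
      (Complex.exp ((a : ℂ) + (b : ℂ) * Complex.I)).im = Real.exp a * Real.sin b := by
    intro a b
    rw [Complex.exp_re, Complex.exp_im]
    simp
  rw [e1, (e3 _ _).1, (e3 _ _).2, e2, Real.cos_neg, Real.sin_neg]
  exact ⟨rfl, by ring⟩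

theorem expand : ∃ C : ℝ, 0 < C ∧ ∀ X y h : ℝ, 1 / 2 ≤ X →
    |PP X (y + h) - PP X y| ≤ ‖DP (QX X) (ra X h) (y + h / 2)‖ + ‖DP (QX (X / 2)) (rb X) (2 * (y + h))‖ +
      ‖DP (QX (X / 2)) (rb X) (2 * y)‖ + C := by
  classical
  obtain ⟨C, hC, hhigh⟩ := high17
  refine ⟨4 / Real.pi * C, by positivity, ?_⟩
  intro X y h hX
  have hX0 : 0 < X := by linarith
  have hpi := Real.pi_pos
  set N : ℕ := ⌊Real.exp X⌋₊ with hN
  set R : Finset ℕ := Finset.range (N + 1) with hR
  set S1 : Finset ℕ := QX X with hS1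
  set S2 : Finset ℕ := (QX (X / 2)).image (fun p => p ^ 2) with hS2
  -- general facts
  have hS1R : S1 ⊆ R := Finset.filter_subset _ _
  have hS2R : S2 ⊆ R := by
    intro n hn
    rw [hS2, Finset.mem_image] at hn
    obtain ⟨p, hp, rfl⟩ := hn
    rw [QX, Finset.mem_filter, Finset.mem_range, Nat.lt_succ_iff,
      Nat.le_floor_iff (Real.exp_pos _).le] at hp
    rw [hR, Finset.mem_range, Nat.lt_succ_iff, hN, Nat.le_floor_iff (Real.exp_pos _).le]
    push_cast
    have e : Real.exp X = Real.exp (X / 2) ^ 2 := by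
      rw [← Real.exp_nat_mul]; congr 1; push_cast; ring
    rw [e]
    exact pow_le_pow_left₀ (Nat.cast_nonneg _) hp.1 2
  have hdis : Disjoint S1 S2 := by
    rw [Finset.disjoint_left]
    intro n hn hn2
    rw [hS1, QX, Finset.mem_filter] at hn
    rw [hS2, Finset.mem_image] at hn2
    obtain ⟨p, hp, rfl⟩ := hn2
    exact Nat.Prime.not_prime_pow (le_refl 2) hn.2
  have hS3 : ∀ n ∈ R \ (S1 ∪ S2), ¬ n.Prime ∧ ∀ p : ℕ, p.Prime → n ≠ p ^ 2 := by
    intro n hn
    rw [Finset.mem_sdiff, Finset.mem_union, not_or] at hn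
    obtain ⟨hnR, hn1, hn2⟩ := hn
    constructor
    · intro hp
      exact hn1 (Finset.mem_filter.2 ⟨hnR, hp⟩)
    · rintro p hp rfl
      apply hn2
      rw [hS2, Finset.mem_image]
      refine ⟨p, ?_, rfl⟩
      rw [QX, Finset.mem_filter, Finset.mem_range, Nat.lt_succ_iff,
        Nat.le_floor_iff (Real.exp_pos _).le]
      refine ⟨?_, hp⟩
      rw [hR, Finset.mem_range, Nat.lt_succ_iff, hN, Nat.le_floor_iff (Real.exp_pos _).le] at hnR
      push_cast at hnR
      have e : Real.exp X = Real.exp (X / 2) ^ 2 := by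
        rw [← Real.exp_nat_mul]; congr 1; push_cast; ring
      rw [e] at hnR
      exact (pow_le_pow_iff_left₀ (Nat.cast_nonneg _) (Real.exp_pos _).le (by norm_num)).1 hnR
  have hlog : ∀ n : ℕ, 0 ≤ Real.log n / X := fun n =>
    div_nonneg (Real.log_natCast_nonneg n) hX0.le
  -- the terms
  set g : ℕ → ℝ := fun n => w17 n * ph (Real.log n / X) with hg
  have hPP : PP X (y + h) - PP X y = 1 / Real.pi * ∑ n ∈ R,
      g n * (Real.sin ((y + h) * Real.log n) - Real.sin (y * Real.log n)) := by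
    rw [PP_eq17 hX0, PP_eq17 hX0, ← mul_sub, ← Finset.sum_sub_distrib]
    congr 1
    refine Finset.sum_congr rfl fun n _ => ?_
    simp only [hg]; ring
  have hsplit : ∀ f : ℕ → ℝ, ∑ n ∈ R, f n =
      ∑ n ∈ S1, f n + ∑ p ∈ QX (X / 2), f (p ^ 2) + ∑ n ∈ R \ (S1 ∪ S2), f n := by
    intro f
    rw [← Finset.sum_sdiff (Finset.union_subset hS1R hS2R), Finset.sum_union hdis, hS2,
      Finset.sum_image]
    · ring
    · intro a _ b _ hab
      exact Nat.pow_left_injective (by norm_num : 2 ≠ 0) hab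
  -- primes
  have hA : 1 / Real.pi * ∑ n ∈ S1, g n * (Real.sin ((y + h) * Real.log n) -
      Real.sin (y * Real.log n)) = (DP (QX X) (ra X h) (y + h / 2)).re := by
    rw [DP, Complex.re_sum, Finset.mul_sum]
    refine Finset.sum_congr rfl fun p hp => ?_
    have hpp : p.Prime := by
      rw [QX, Finset.mem_filter] at hp; exact hp.2
    rw [Complex.re_ofReal_mul, (cpow17 hpp.two_le _).1]
    have e1 : Real.sin ((y + h) * Real.log p) - Real.sin (y * Real.log p) =
        2 * Real.sin (h * Real.log p / 2) * Real.cos ((y + h / 2) * Real.log p) := by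
      rw [Real.sin_sub_sin]
      congr 2
      · congr 1; ring
      · ring
    rw [e1]
    simp only [hg]
    rw [w17_prime hpp]
    unfold ra
    ring
  -- squares
  have hB : ∀ z : ℝ, |1 / Real.pi * ∑ p ∈ QX (X / 2), g (p ^ 2) *
      Real.sin (z * Real.log ((p ^ 2 : ℕ) : ℝ))| ≤ ‖DP (QX (X / 2)) (rb X) (2 * z)‖ := by
    intro z
    have e1 : 1 / Real.pi * ∑ p ∈ QX (X / 2), g (p ^ 2) *
        Real.sin (z * Real.log ((p ^ 2 : ℕ) : ℝ)) = -(DP (QX (X / 2)) (rb X) (2 * z)).im := by
      rw [DP, Complex.im_sum, Finset.mul_sum, ← Finset.sum_neg_distrib]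
      refine Finset.sum_congr rfl fun p hp => ?_
      have hpp : p.Prime := by
        rw [QX, Finset.mem_filter] at hp; exact hp.2
      have hp0 : (0 : ℝ) < p := by exact_mod_cast hpp.pos
      rw [Complex.im_ofReal_mul, (cpow17 hpp.two_le _).2]
      simp only [hg]
      rw [w17_sq hpp]
      have e2 : Real.log ((p ^ 2 : ℕ) : ℝ) = 2 * Real.log p := by
        push_cast
        rw [Real.log_pow]; push_cast; ring
      rw [e2]
      unfold rb
      have e3 : z * (2 * Real.log p) = 2 * z * Real.log p := by ring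
      rw [e3]
      have hs : √(p : ℝ) * √(p : ℝ) = p := Real.mul_self_sqrt hp0.le
      have hs0 : 0 < √(p : ℝ) := Real.sqrt_pos.2 hp0
      field_simp
      rw [sq, hs]
      ring
    rw [e1, abs_neg]
    exact Complex.abs_im_le_norm _
  -- higher powers
  have hE : |1 / Real.pi * ∑ n ∈ R \ (S1 ∪ S2), g n * (Real.sin ((y + h) * Real.log n) -
      Real.sin (y * Real.log n))| ≤ 4 / Real.pi * C := by
    rw [abs_mul, abs_of_pos (by positivity : 0 < 1 / Real.pi)]
    have h1 : |∑ n ∈ R \ (S1 ∪ S2), g n * (Real.sin ((y + h) * Real.log n) -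
        Real.sin (y * Real.log n))| ≤ 4 * C := by
      refine (Finset.abs_sum_le_sum_abs _ _).trans ?_
      calc ∑ n ∈ R \ (S1 ∪ S2), |g n * (Real.sin ((y + h) * Real.log n) -
            Real.sin (y * Real.log n))| ≤ ∑ n ∈ R \ (S1 ∪ S2), 4 * w17 n := by
            refine Finset.sum_le_sum fun n _ => ?_
            rw [abs_mul]
            simp only [hg]
            rw [abs_mul, abs_of_nonneg (w17_nonneg n)]
            have h2 := ph_abs _ (hlog n)
            have h3 : |Real.sin ((y + h) * Real.log n) - Real.sin (y * Real.log n)| ≤ 2 := by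
              have h4 := Real.abs_sin_le_one ((y + h) * Real.log n)
              have h5 := Real.abs_sin_le_one (y * Real.log n)
              exact (abs_sub _ _).trans (by linarith)
            have h6 : w17 n * |ph (Real.log n / X)| ≤ w17 n * 2 :=
              mul_le_mul_of_nonneg_left h2 (w17_nonneg n)
            calc w17 n * |ph (Real.log n / X)| * |Real.sin ((y + h) * Real.log n) -
                  Real.sin (y * Real.log n)| ≤ w17 n * 2 * 2 :=
                  mul_le_mul h6 h3 (abs_nonneg _) (by have := w17_nonneg n; linarith)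
              _ = 4 * w17 n := by ring
        _ = 4 * ∑ n ∈ R \ (S1 ∪ S2), w17 n := by rw [Finset.mul_sum]
        _ ≤ 4 * C := by
            have := hhigh N (R \ (S1 ∪ S2)) Finset.sdiff_subset hS3
            linarith
    calc 1 / Real.pi * |∑ n ∈ R \ (S1 ∪ S2), g n * (Real.sin ((y + h) * Real.log n) -
          Real.sin (y * Real.log n))| ≤ 1 / Real.pi * (4 * C) :=
          mul_le_mul_of_nonneg_left h1 (by positivity)
      _ = 4 / Real.pi * C := by ring
  -- together
  have hsum : PP X (y + h) - PP X y = (DP (QX X) (ra X h) (y + h / 2)).re +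
      (1 / Real.pi * ∑ p ∈ QX (X / 2), g (p ^ 2) * Real.sin ((y + h) * Real.log ((p ^ 2 : ℕ) : ℝ)) -
        1 / Real.pi * ∑ p ∈ QX (X / 2), g (p ^ 2) * Real.sin (y * Real.log ((p ^ 2 : ℕ) : ℝ))) +
      1 / Real.pi * ∑ n ∈ R \ (S1 ∪ S2), g n * (Real.sin ((y + h) * Real.log n) -
        Real.sin (y * Real.log n)) := by
    rw [hPP, hsplit, mul_add, mul_add, hA]
    congr 2
    rw [← mul_sub, ← Finset.sum_sub_distrib]
    congr 1
    refine Finset.sum_congr rfl fun p _ => ?_
    ring
  rw [hsum]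
  have h1 := Complex.abs_re_le_norm (DP (QX X) (ra X h) (y + h / 2))
  have h2 := hB (y + h)
  have h3 := hB y
  refine (abs_add_le _ _).trans (add_le_add ?_ hE)
  refine (abs_add_le _ _).trans ?_
  rw [add_assoc]
  refine add_le_add h1 ?_
  exact (abs_sub _ _).trans (add_le_add h2 h3)

end Pool.Agent.Helper57.TX
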